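import Pool.Agent.Lib.MP_6a3dac_ag.Fam.S6
import Pool.Agent.Lib.MP_6a3dac_ag.Tor.T10

/-!
# A local-global principle for regular models in families

Let `E` be a number field with ring of integers `𝓞_E` and let `J` be an ideal of
`𝓞_E[t_i (i ∈ ι)][x₀, ..., x_(m + c)]` which is homogeneous in the variables `x`.  For every
`a ∈ 𝓞_E ^ ι` let `X_a = Proj 𝓞_E[x] / J(a)`.  Assume that the generic fibre of the family is smooth
of dimension `m` and that over `E`, outside of a closed subset of codimension at least two of the
space of parameters, the family has at most nondegenerate double points or is toroidal: there is a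
polynomial `h` such that the family is smooth where `h` is not zero, and near the points where `h`
is zero it is defined in a smooth scheme of relative dimension `m + 1` over the space of parameters
by an equation `w * ∏ g_i ^ e_i = u * h` with units `w`, `u` and functions `g_i` such that the
relative differentials of those `g_i` which vanish at the point are linearly independent.

For every prime `P` of `𝓞_E` and every `k` count the classes modulo `P ^ k` such that for all (for
some) members `X_a` the following holds: the generic fibre of `X_a` is not smooth of dimension `m`,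
or it has a regular proper flat model over a neighbourhood of `P` in the spectrum of `𝓞_E`.  Let
`δ_P` be the supremum over `k` of the proportions of the classes for which this holds for all
members, and let `D_P` be the infimum over `k` of the proportions of the classes for which this
holds for some member.

* The `a` for which the generic fibre of `X_a` is smooth of dimension `m` and has a regular proper
  flat model over `𝓞_E` have lower density at least `∏ δ_P` and upper density at most `∏ D_P`; the
  products converge, and the first one is positive unless a factor is zero.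
* `δ_P` is positive if one member has a blow-up, at an ideal which contains a nonzero constant,
  which is regular over `P`.
* For every `ε > 0` there is a finite set `S` of primes such that, for all `a` in a set of lower
  density at least `1 - ε`, the generic fibre of `X_a` is smooth and has a proper flat model over
  `𝓞_E` which is regular at all points not lying over `S`.  If there is only one parameter, there is
  a finite set `S` for which this holds for all `a` for which the generic fibre is smooth.

The hypotheses hold for the family of the sections of a projective scheme with smooth generic fibre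
by forms of arbitrary positive degrees.
-/

set_option autoImplicit false

namespace Pool.Agent.Results.MP_6a3dac_ag.LocalGlobal

open NumberField IsDedekindDomain MvPolynomial Pool.Agent.Lib.MP_6a3dac_ag
open Pool.Agent.Lib.MP_6a3dac_ag.DNF Pool.Agent.Lib.MP_6a3dac_ag.Fam
open Pool.Agent.Lib.MP_6a3dac_ag.Tor Pool.Agent.Lib.MP_6a3dac_ag.Blow

theorem result (E : Type) [Field E] [NumberField E] (s : ℕ) (b : Module.Basis (Fin s) ℤ (𝓞 E))
    (m c : ℕ) :
    (∀ (ι : Type) [Fintype ι] [DecidableEq ι] (J : HomIdeal (MvPolynomial ι (𝓞 E)) (m + c + 1)),
      GenSmooth J → NodalCodim J ∨ TorCodim J →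
      (∃ Δ Δ' : ℝ, HasProd (locDens J) Δ ∧ HasProd (outDens J) Δ' ∧
        ((∀ P : HeightOneSpectrum (𝓞 E), 0 < locDens J P) → 0 < Δ) ∧
        Δ ≤ (lowerDens b fun a => GenFibreSmooth (fib J a) ∧ HasModel (fib J a)) ∧
        (upperDens b fun a => GenFibreSmooth (fib J a) ∧ HasModel (fib J a)) ≤ Δ') ∧
      (∀ (P : HeightOneSpectrum (𝓞 E)) (a : ι → 𝓞 E), HasBlow P (fib J a) → 0 < locDens J P) ∧
      (∀ ε : ℝ, 0 < ε → ∃ S : Finset (HeightOneSpectrum (𝓞 E)), 1 - ε ≤ lowerDens b fun a =>
        GenFibreSmooth (fib J a) ∧
          ModelOn E {P | P ∉ S} (hProjTo (bc (algebraMap (𝓞 E) E) (fib J a)))) ∧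
      (Subsingleton ι → ∃ S : Finset (HeightOneSpectrum (𝓞 E)), ∀ a : ι → 𝓞 E,
        GenFibreSmooth (fib J a) →
          ModelOn E {P | P ∉ S} (hProjTo (bc (algebraMap (𝓞 E) E) (fib J a))))) ∧
    (∀ (r : ℕ) (I : HomIdeal (𝓞 E) (m + c + 1)) (d : Fin r → ℕ), 1 ≤ r → SmoothOfDim (m + r) I →
      (∀ k, 1 ≤ d k) → GenSmooth (m := m) (c := c) (secFam I d) ∧
        NodalCodim (m := m) (c := c) (secFam I d)) :=
  ⟨fun _ _ _ J h1 h2 => ⟨families_nodal_or_tor b J h1 h2, fun _ _ h => h.locDens_pos,
      fun _ hε => families_away b J h1 h2 hε, fun _ => uniform_away h2⟩,
    fun _ I _ hr hI hd => ⟨sec_genSmooth hr I hI hd, sec_nodalCodim hr I hI hd⟩⟩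

end Pool.Agent.Results.MP_6a3dac_ag.LocalGlobal
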