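import Pool.Agent.Lib.MP_6a3dac_ag.Maj.AllDegrees

/-!
# Most hypersurfaces over a number field have regular models

Let `E` be a number field and `n ≥ 2`.  The forms of degree `d` in `n + 1` variables over the ring
of integers of `E` are ordered by the size of the coordinates of their coefficients in an integral
basis.  The lower density of the forms which define a smooth hypersurface over `E` with a regular
proper flat model over the ring of integers of `E` is positive for every degree `d ≥ 2`, and for
large `d` it is at least (almost) the constant `tcC E`, the product over all prime ideals `P` of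
`1 - ∑ 1 / (e Q² (Q - 1)² (Q + 1))`, where the sum is over all `e ≥ 1` and `Q = N(P) ^ e`.  The
constant is larger than `(9 / 10) ^ [E : ℚ]`.
-/

set_option autoImplicit false

namespace Pool.Agent.Results.MP_6a3dac_ag.MostHypersurfaces

open NumberField Filter Pool.Agent.Lib.MP_6a3dac_ag Pool.Agent.Lib.MP_6a3dac_ag.Maj

theorem result (E : Type) [Field E] [NumberField E] (s : ℕ) (b : Module.Basis (Fin s) ℤ (𝓞 E))
    (n : ℕ) (hn : 2 ≤ n) :
    (∀ d : ℕ, 2 ≤ d → 0 < lowerDensity b n d) ∧
    (∀ ε : ℝ, 0 < ε → ∀ᶠ d : ℕ in atTop, tcC E - ε ≤ lowerDensity b n d) ∧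
    (9 / 10 : ℝ) ^ Module.finrank ℚ E < tcC E :=
  all_degrees E s b n hn

end Pool.Agent.Results.MP_6a3dac_ag.MostHypersurfaces
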