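import Pool.Agent.Lib.MP_6a3dac_ag.LS.L7

/-!
# Regular models of all members of a family outside a fixed integer

Let `R` be a commutative ring, `T` a set of prime numbers and `J` a homogeneous ideal of
`R[x₀, ..., x_(m + c)]`, `c > 0`.  For a number field `E` with ring of integers `𝓞_E`, a prime `P`
of `𝓞_E` and a homomorphism `a` of `R` to the local ring of `𝓞_E` at `P` let `X_a` be the fibre
over `E` of `Proj R[x] / J` at `a`.  Assume that at all points whose residue characteristic is not
in `T` the family is logarithmically smooth over `R` with elements `h_1, ..., h_l` of `R`: near the
point it is defined in a smooth scheme of relative dimension `m + l` by equations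
`w_j * ∏ g_i ^ e_ji = u_j * h_j` with units `w_j`, `u_j`, where the `g_i` are equations of divisors
defined by ideals `K_i`, and the differentials of the `g_i` which vanish at the point and the
logarithmic differentials of these equations are independent.

There is a positive integer `N` whose prime factors are in `T` such that for all number fields `E`,
for all primes `P` of `𝓞_E` which do not divide `N` and for all `a` with `a(h_j) ≠ 0` for all `j`
the scheme `X_a` is smooth over `E` and is the generic fibre of a scheme over `𝓞_E` which is
regular, proper and flat over a neighbourhood of `P`.  Every scheme over `E` which is for each `P`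
not dividing `N` one of these `X_a` has a proper flat model over `𝓞_E` which is regular at all
points not lying over the divisors of `N`, and it has a regular proper flat model over `𝓞_E` if it
has one near each of the finitely many primes dividing `N`.

If `T` is empty, then the assumption is made at all points, `N = 1`, and each such scheme has a
regular proper flat model over `𝓞_E`.  If `T` is the set of all prime numbers, then the assumption
is made at the points of characteristic zero.

The ring `R` can be the product of the rings of an affine covering of a projective base: a
homomorphism of this product to a domain factors through one of its factors, and a point of the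
base over `E` is a point over each of the local rings.
-/

set_option autoImplicit false

namespace Pool.Agent.Results.MP_6a3dac_ag.UniformModels

open NumberField IsDedekindDomain MvPolynomial CategoryTheory AlgebraicGeometry
open Pool.Agent.Lib.MP_6a3dac_ag
open Pool.Agent.Lib.MP_6a3dac_ag.DNF Pool.Agent.Lib.MP_6a3dac_ag.Fam
open Pool.Agent.Lib.MP_6a3dac_ag.LS

theorem result (R : Type) [CommRing R] (T : Set ℕ) (m c l s : ℕ) (hc : 1 ≤ c)
    (J : HomIdeal R (m + c + 1)) (e : Fin l → Fin s → ℕ) (h : Fin l → R)
    (K : Fin s → HomIdeal R (m + c + 1)) (H : LogSmooth T J e h K) :
    ∃ N : ℕ, N ≠ 0 ∧ (∀ p : ℕ, p.Prime → p ∣ N → p ∈ T) ∧ ∀ (E : Type) [Field E] [NumberField E],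
      (∀ P : HeightOneSpectrum (𝓞 E), (N : 𝓞 E) ∉ P.asIdeal →
        ∀ (X : Scheme.{0}) (π : X ⟶ Spec (CommRingCat.of E)),
          IsMember P J h π → Smooth π ∧ HasModelAt E P π) ∧
      ∀ (X : Scheme.{0}) (π : X ⟶ Spec (CommRingCat.of E)),
        (∀ P : HeightOneSpectrum (𝓞 E), (N : 𝓞 E) ∉ P.asIdeal → IsMember P J h π) →
          ModelOn E {P | (N : 𝓞 E) ∉ P.asIdeal} π ∧
            ((∀ P : HeightOneSpectrum (𝓞 E), (N : 𝓞 E) ∈ P.asIdeal → HasModelAt E P π) →
              HasRegularModel E π) :=
  exists_uniform_log hc H

end Pool.Agent.Results.MP_6a3dac_ag.UniformModels
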