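import Pool.Agent.Lib.MP_6a3dac_ag.NU.WIFF

/-!
# Regular models which satisfy the valuative criterion for all discrete valuation rings

Let `E` be a number field and let `X` be an integral smooth scheme over `E`, which is a closed
subscheme of a projective space over `E`, or of the generic fibre of a proper scheme over `𝓞 E`
(by Nagata's theorem every proper `X` is such a subscheme). Then there is a regular scheme `𝒰`,
separated, flat and locally of finite type over `𝓞 E`, with generic fibre `X`, such that

* `𝒰` satisfies the valuative criterion of properness for all discrete valuation rings, of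
  characteristic zero and of positive characteristic, and for all valuation rings which are locally
  composed of discrete valuation rings and rings containing the rational numbers;
* `K`-points extend uniquely to `D`-points for all integrally closed domains `D`, with field of
  fractions `K`, which are integral over a Dedekind domain of any characteristic;
* `𝒰` is the increasing union of quasi-compact open subschemes `W d`, each of them open in a proper
  flat model `Y d` of `X`, which contain all points over discrete valuation rings of absolute
  ramification index at most `d`, and over rings of integers of number fields of degree at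
  most `d`, of `𝒰` and of `Y d`;
* if `𝒰` is quasi-compact, it is a regular proper flat model of `X`.

Hence `X` has a regular proper flat model if and only if one can choose `𝒰` quasi-compact. For every
integral proper model `𝒴` of `X` one can choose `𝒰` with a morphism `𝒰 ⟶ 𝒴` which is an
isomorphism over all regular open subschemes of `𝒴`.
-/

set_option autoImplicit false

namespace Pool.Agent.Results.MP_6a3dac_ag.ValuativeModels

open CategoryTheory Limits AlgebraicGeometry NumberField
open Pool.Agent.Lib.MP_6a3dac_ag.NU

theorem result (E : Type) [Field E] [NumberField E] (X : Scheme.{0}) [IsIntegral X]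
    (f : X ⟶ Spec (CommRingCat.of E)) (hf : Smooth f) (h : HasClosure E f) :
    (∃ (𝒰 : Scheme.{0}) (g : 𝒰 ⟶ Spec (CommRingCat.of (𝓞 E))), IsValuativeModel E f g) ∧
    ((∃ (𝒰 : Scheme.{0}) (g : 𝒰 ⟶ Spec (CommRingCat.of (𝓞 E))),
      IsValuativeModel E f g ∧ CompactSpace 𝒰) ↔ HasRegularModel E f) ∧
    ∀ (𝒴 : Scheme.{0}) [IsIntegral 𝒴] (q : 𝒴 ⟶ Spec (CommRingCat.of (𝓞 E))),
      IsProper q → HasGenericFibre E f q →
      ∃ (𝒰 : Scheme.{0}) (π : 𝒰 ⟶ 𝒴), IsValuativeModel E f (π ≫ q) ∧
        ∀ V : 𝒴.Opens, (∀ y ∈ V, IsRegularLocalRing (𝒴.presheaf.stalk y)) → IsIso (π ∣_ V) :=
  ⟨exists_isValuativeModel_of_hasClosure f hf h, exists_compact_iff f,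
    fun _ _ q hq hq' => exists_isValuativeModel f hf q hq hq'⟩

end Pool.Agent.Results.MP_6a3dac_ag.ValuativeModels
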